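import Pool.Agent.W670.TL.Defs

set_option autoImplicit false

/-!
# Project TL, part CHB: weak Chebyshev lower bound
-/

namespace Pool.Agent.W202.TL

open Chebyshev

theorem chb : Pool.Agent.W670.TL.S_CHB := by
  intro τ hτ
  have hl2 : 0 < Real.log 2 := Real.log_pos one_lt_two
  refine ⟨τ * Real.log 2 / 3, by positivity, fun Z hZ => ?_⟩
  have hP : (Finset.card ((Finset.range (Z + 1)).filter Nat.Prime)) = Nat.primeCounting Z := by
    rw [Nat.primeCounting, Nat.primeCounting', Nat.count_eq_card_filter_range]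
  rw [hP]
  have h1 := psi_ge Z
  have h2 := psi_le_primeCounting_mul_log Z
  have hZ0 : (0 : ℝ) < Z := by positivity
  have hZ2 : (2 : ℝ) ≤ Z := by exact_mod_cast hZ
  have hlZ : 0 < Real.log Z := Real.log_pos (by linarith)
  have hP1 : (1 : ℝ) ≤ (Nat.primeCounting Z : ℝ) := by
    have : 0 < Nat.primeCounting Z := by
      rw [← hP, Finset.card_pos]
      exact ⟨2, by simp [Nat.prime_two]; omega⟩
    exact_mod_cast this
  have h3 : Real.log (Z + 1) ≤ 2 * Real.log Z := by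
    have : Real.log ((Z : ℝ) + 1) ≤ Real.log ((Z : ℝ) ^ 2) := by
      apply Real.log_le_log (by positivity)
      nlinarith
    rwa [Real.log_pow, Nat.cast_ofNat] at this
  have h4 : (Z : ℝ) * Real.log 2 ≤ 3 * (Nat.primeCounting Z) * Real.log Z := by
    have : Real.log Z ≤ (Nat.primeCounting Z) * Real.log Z := le_mul_of_one_le_left hlZ.le hP1
    linarith
  have h5 : Real.log Z ≤ (Z : ℝ) ^ τ / τ := Real.log_le_rpow_div hZ0.le hτ
  have h6 : (Z : ℝ) * Real.log 2 ≤ 3 * (Nat.primeCounting Z) * ((Z : ℝ) ^ τ / τ) :=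
    h4.trans (by gcongr)
  have hZτ : 0 < (Z : ℝ) ^ τ := by positivity
  rw [Real.rpow_sub hZ0, Real.rpow_one]
  have h7 : τ * Real.log 2 / 3 * ((Z : ℝ) / (Z : ℝ) ^ τ) =
    ((Z : ℝ) * Real.log 2) * (τ / (3 * (Z : ℝ) ^ τ)) := by
    field_simp
  rw [h7]
  calc ((Z : ℝ) * Real.log 2) * (τ / (3 * (Z : ℝ) ^ τ))
      ≤ (3 * (Nat.primeCounting Z) * ((Z : ℝ) ^ τ / τ)) * (τ / (3 * (Z : ℝ) ^ τ)) := by gcongr
    _ = (Nat.primeCounting Z : ℝ) := by field_simp

end Pool.Agent.W202.TL
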